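import Pool.Agent.H69.OC.Targets

/-!
# The dangling edges of a pocket in cyclic order
-/

set_option autoImplicit false
set_option linter.unusedSectionVars false
open scoped Classical
open Finset

namespace Pool.Agent.H96.OC

open Pool.Agent.H69.OC
open Pool.Agent.H69.OC.DG

section

variable {V D : Type} [Fintype V] [Fintype D] {G : DG V D}

theorem ports_aux (hD1 : T_D1) (hD2 : T_D2) (hG : G.Cub) (h3 : G.C3) (h4 : G.C4)
    {X : Finset V} {g : D → ℕ} (hP : G.Pocket X g) :
    (∀ a ∈ G.cut univ X, ∀ b ∈ G.cut univ X, g a = g b → a = b) ∧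
    (∀ a ∈ G.cut univ X, ∃ b ∈ G.cut univ X, g (G.inv a) = g b) ∧
    (∀ a ∈ G.cut univ X, ∀ b ∈ G.cut univ X, g (G.inv a) = g b → a ≠ b) ∧
    (∀ a ∈ G.cut univ X, ∀ b ∈ G.cut univ X, g (G.inv a) = g b → g (G.inv b) = g a → False) ∧
    (∀ a ∈ G.cut univ X, ∀ b ∈ G.cut univ X, g (G.inv a) = g (G.inv b) → a = b) := by
  have hst := fun k => stokes (G := G) cl_univ (f := g) (W := X) hP.bal k
  have hmem : ∀ a ∈ G.cut univ X, G.src a ∈ X ∧ G.tgt a ∉ X := fun a ha => (mem_cut.1 ha).2
  have htc : ∀ a ∈ G.cut univ X, G.Tc X a := fun a ha => Or.inl (hmem a ha).1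
  have hfix : ∀ a ∈ G.cut univ X, g a ≠ g (G.inv a) := fun a ha =>
    hD1 V D G hG h3 h4 X g hP a (htc a ha)
  -- no two-cycles
  have h2c : ∀ a ∈ G.cut univ X, ∀ b ∈ G.cut univ X, g (G.inv a) = g b → g (G.inv b) = g a →
      False := by
    intro a ha b hb hab hba
    have := hD2 V D G hG h3 h4 X g hP b (G.inv a) (htc b hb) (tc_inv.2 (htc a ha)) hab.symm
      (by rw [G.inv_inv]; exact hba)
    have h5 := (hmem b hb).1
    rw [this, src_inv] at h5
    exact (hmem a ha).2 h5
  have hnext : ∀ a ∈ G.cut univ X, ∃ b ∈ G.cut univ X, g (G.inv a) = g b := by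
    intro a ha
    have h5 := hst (g (G.inv a))
    have h6 : 0 < (sel (G.cut univ X) fun d => g (G.inv d) = g (G.inv a)).card :=
      card_pos.2 ⟨a, mem_sel.2 ⟨ha, rfl⟩⟩
    rw [← h5] at h6
    obtain ⟨b, hb⟩ := card_pos.1 h6
    rw [mem_sel] at hb
    exact ⟨b, hb.1, hb.2.symm⟩
  have hinj : ∀ a ∈ G.cut univ X, ∀ b ∈ G.cut univ X, g a = g b → a = b := by
    intro a ha b hb hab
    by_contra hne
    have h5 := hst (g a)
    have h6 : 2 ≤ (sel (G.cut univ X) fun d => g d = g a).card := by
      have : ({a, b} : Finset D) ⊆ sel (G.cut univ X) fun d => g d = g a := by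
        intro c hc
        rw [mem_insert, mem_singleton] at hc
        rw [mem_sel]
        rcases hc with rfl | rfl
        · exact ⟨ha, rfl⟩
        · exact ⟨hb, hab.symm⟩
      have h7 := card_le_card this
      rwa [card_pair hne] at h7
    rw [h5] at h6
    -- next of a
    obtain ⟨d, hd, hdg⟩ := hnext a ha
    have hda : d ≠ a := fun h => hfix a ha (by rw [hdg, h])
    have hdb : d ≠ b := fun h => hfix a ha (by rw [hdg, h, ← hab])
    -- all elements with g (inv .) = g a are outside {a,b}
    have h8 : ∀ c ∈ sel (G.cut univ X) (fun d => g (G.inv d) = g a), c ≠ a ∧ c ≠ b := by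
      intro c hc
      rw [mem_sel] at hc
      constructor
      · rintro rfl
        exact hfix _ ha hc.2.symm
      · rintro rfl
        exact hfix _ hb (by rw [hc.2, hab])
    have h9 : (sel (G.cut univ X) (fun d => g (G.inv d) = g a)) ∪ {a, b} ⊆ G.cut univ X := by
      intro c hc
      rw [mem_union, mem_insert, mem_singleton, mem_sel] at hc
      rcases hc with hc | rfl | rfl
      · exact hc.1
      · exact ha
      · exact hb
    have h10 : Disjoint (sel (G.cut univ X) (fun d => g (G.inv d) = g a)) {a, b} := by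
      rw [disjoint_left]
      intro c hc hc'
      rw [mem_insert, mem_singleton] at hc'
      have := h8 c hc
      tauto
    have h11 := card_union_of_disjoint h10
    rw [card_pair hne] at h11
    have h12 : (sel (G.cut univ X) (fun d => g (G.inv d) = g a)) ∪ {a, b} = G.cut univ X := by
      apply eq_of_subset_of_card_le h9
      rw [hP.four]
      omega
    have h13 : d ∈ sel (G.cut univ X) (fun d => g (G.inv d) = g a) := by
      have : d ∈ (sel (G.cut univ X) (fun d => g (G.inv d) = g a)) ∪ {a, b} := by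
        rw [h12]
        exact hd
      rw [mem_union, mem_insert, mem_singleton] at this
      tauto
    rw [mem_sel] at h13
    exact h2c a ha d hd hdg h13.2
  refine ⟨hinj, hnext, ?_, h2c, ?_⟩
  · intro a ha b _ hab h
    subst h
    exact hfix a ha hab.symm
  · intro a ha b hb hab
    by_contra hne
    have h5 := hst (g (G.inv a))
    have h6 : 2 ≤ (sel (G.cut univ X) fun d => g (G.inv d) = g (G.inv a)).card := by
      have : ({a, b} : Finset D) ⊆ sel (G.cut univ X) fun d => g (G.inv d) = g (G.inv a) := by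
        intro c hc
        rw [mem_insert, mem_singleton] at hc
        rw [mem_sel]
        rcases hc with rfl | rfl
        · exact ⟨ha, rfl⟩
        · exact ⟨hb, hab.symm⟩
      have h7 := card_le_card this
      rwa [card_pair hne] at h7
    rw [← h5] at h6
    obtain ⟨c, hc, c', hc', hcc⟩ := one_lt_card.1 (show 1 < _ from h6)
    rw [mem_sel] at hc hc'
    exact hcc (hinj c hc.1 c' hc'.1 (hc.2.trans hc'.2.symm))

end

/-- the dangling edges of a pocket in cyclic order -/
theorem t_ports (hD1 : T_D1) (hD2 : T_D2) : T_PORTS := by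
  intro V D _ _ G hG h3 h4 X g hP
  obtain ⟨hinj, hnext, hne, h2c, hinj'⟩ := ports_aux hD1 hD2 hG h3 h4 hP
  have hne0 : (G.cut univ X).Nonempty := by
    rw [← card_pos, hP.four]
    norm_num
  obtain ⟨d1, m1⟩ := hne0
  obtain ⟨d2, m2, e12⟩ := hnext d1 m1
  obtain ⟨d3, m3, e23⟩ := hnext d2 m2
  obtain ⟨d4, m4, e34⟩ := hnext d3 m3
  obtain ⟨d5, m5, e45⟩ := hnext d4 m4
  have n12 : d1 ≠ d2 := hne d1 m1 d2 m2 e12
  have n23 : d2 ≠ d3 := hne d2 m2 d3 m3 e23
  have n34 : d3 ≠ d4 := hne d3 m3 d4 m4 e34
  have n45 : d4 ≠ d5 := hne d4 m4 d5 m5 e45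
  have n13 : d1 ≠ d3 := by
    rintro rfl
    exact h2c d1 m1 d2 m2 e12 e23
  have n24 : d2 ≠ d4 := by
    rintro rfl
    exact h2c d2 m2 d3 m3 e23 e34
  have n35 : d3 ≠ d5 := by
    rintro rfl
    exact h2c d3 m3 d4 m4 e34 e45
  -- the fourth element
  have n14 : d1 ≠ d4 := by
    intro h14
    have hsub : ({d1, d2, d3} : Finset D) ⊆ G.cut univ X := by
      intro c hc
      simp only [mem_insert, mem_singleton] at hc
      rcases hc with rfl | rfl | rfl <;> assumption
    have hc3 : ({d1, d2, d3} : Finset D).card = 3 := by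
      rw [card_insert_of_notMem, card_pair n23]
      simp [n12, n13]
    have hex : ∃ c ∈ G.cut univ X, c ∉ ({d1, d2, d3} : Finset D) := by
      by_contra hno
      push Not at hno
      have h5 : G.cut univ X ⊆ {d1, d2, d3} := hno
      have h6 := card_le_card h5
      rw [hP.four, hc3] at h6
      omega
    obtain ⟨c, hc, hc'⟩ := hex
    simp only [mem_insert, mem_singleton, not_or] at hc'
    obtain ⟨b, hb, hcb⟩ := hnext c hc
    have hbc : c ≠ b := hne c hc b hb hcb
    have hb1 : b ≠ d1 := by
      intro h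
      apply hc'.2.2
      apply hinj' c hc d3 m3
      rw [hcb, e34, h, h14]
    have hb2 : b ≠ d2 := by
      intro h
      apply hc'.1
      apply hinj' c hc d1 m1
      rw [hcb, e12, h]
    have hb3 : b ≠ d3 := by
      intro h
      apply hc'.2.1
      apply hinj' c hc d2 m2
      rw [hcb, e23, h]
    have h5 : ({b, c, d1, d2, d3} : Finset D) ⊆ G.cut univ X := by
      intro x hx
      simp only [mem_insert, mem_singleton] at hx
      rcases hx with rfl | rfl | rfl | rfl | rfl <;> assumption
    have h6 : ({b, c, d1, d2, d3} : Finset D).card = 5 := by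
      rw [card_insert_of_notMem, card_insert_of_notMem, hc3]
      · simp [hc']
      · simp [hb1, hb2, hb3, hbc.symm]
    have h7 := card_le_card h5
    rw [h6, hP.four] at h7
    omega
  have hc4 : ({d1, d2, d3, d4} : Finset D).card = 4 := by
    rw [card_insert_of_notMem, card_insert_of_notMem, card_pair n34]
    · simp [n23, n24]
    · simp [n12, n13, n14]
  have heq : ({d1, d2, d3, d4} : Finset D) = G.cut univ X := by
    apply eq_of_subset_of_card_le
    · intro c hc
      simp only [mem_insert, mem_singleton] at hc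
      rcases hc with rfl | rfl | rfl | rfl <;> assumption
    · rw [hP.four, hc4]
  have hmem : ∀ d, d ∈ G.cut univ X ↔ (d = d1 ∨ d = d2 ∨ d = d3 ∨ d = d4) := by
    intro d
    rw [← heq]
    simp only [mem_insert, mem_singleton]
  have h51 : d5 = d1 := by
    have h5 := (hmem d5).1 m5
    rcases h5 with h5 | h5 | h5 | h5
    · exact h5
    · exfalso
      apply n14
      apply hinj' d1 m1 d4 m4
      rw [e12, e45, h5]
    · exact absurd h5.symm n35
    · exact absurd h5.symm n45
  subst h51
  refine ⟨d5, d2, d3, d4, ⟨hmem, e12, e23, e34, e45, ?_, ?_, ?_, ?_, ?_, ?_⟩⟩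
  · exact fun h => n12 (hinj _ m1 _ m2 h)
  · exact fun h => n13 (hinj _ m1 _ m3 h)
  · exact fun h => n14 (hinj _ m1 _ m4 h)
  · exact fun h => n23 (hinj _ m2 _ m3 h)
  · exact fun h => n24 (hinj _ m2 _ m4 h)
  · exact fun h => n34 (hinj _ m3 _ m4 h)

end Pool.Agent.H96.OC
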